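import Mathlib

/-!
# Elimination of one variable from two coprime polynomials

Two coprime polynomials over a unique factorization domain stay coprime over the field of
fractions, so a nonzero constant is a combination of them.  In many variables: for two coprime
polynomials and one of the variables there is a nonzero polynomial in the other variables which
vanishes at all common zeros of the two polynomials.
-/

namespace Pool.Agent.Helper16.CY

open Polynomial

/-- Two coprime polynomials over a domain with greatest common divisors stay coprime over the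
field of fractions. -/
theorem isCoprime_map {R : Type*} (K : Type*) [CommRing R] [IsDomain R] [Field K] [Algebra R K]
    [IsFractionRing R K] [IsGCDMonoid R] {F G : R[X]} (h : IsRelPrime F G) :
    IsCoprime (F.map (algebraMap R K)) (G.map (algebraMap R K)) := by
  rw [← isRelPrime_iff_isCoprime]
  intro d hF hG
  let _ : NormalizedGCDMonoid R := Nonempty.some inferInstance
  have hd0 : d ≠ 0 := by
    rintro rfl
    rw [zero_dvd_iff] at hF hG
    have hinj := map_injective (algebraMap R K) (IsFractionRing.injective R K)
    have h1 : F = 0 := hinj (by simpa using hF)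
    have h2 : G = 0 := hinj (by simpa using hG)
    rw [h1, h2] at h
    exact not_isUnit_zero (h dvd_rfl dvd_rfl)
  obtain ⟨c, hc, hcd⟩ := IsLocalization.integerNormalization_spec (nonZeroDivisors R) d
  set e := IsLocalization.integerNormalization (nonZeroDivisors R) d with he
  have he0 : e ≠ 0 := by
    rw [he, Ne, IsFractionRing.integerNormalization_eq_zero_iff]
    exact hd0
  have hc0 : algebraMap R K c ≠ 0 := by
    rw [Ne, FaithfulSMul.algebraMap_eq_zero_iff]
    exact nonZeroDivisors.ne_zero hc
  have h0 : algebraMap R K e.content ≠ 0 := by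
    rw [Ne, FaithfulSMul.algebraMap_eq_zero_iff, content_eq_zero_iff]
    exact he0
  have hd' : C (algebraMap R K c) * d = C (algebraMap R K e.content) *
      e.primPart.map (algebraMap R K) := by
    have h1 : e.map (algebraMap R K) = C (algebraMap R K c) * d := by
      rw [hcd, Algebra.smul_def, Polynomial.algebraMap_apply]
    have h2 := congrArg (map (algebraMap R K)) e.eq_C_content_mul_primPart
    rw [Polynomial.map_mul, map_C, h1] at h2
    exact h2
  have hprim : e.primPart.map (algebraMap R K) ∣ d := by
    have hu : IsUnit (C (algebraMap R K c)) := isUnit_C.mpr (isUnit_iff_ne_zero.mpr hc0)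
    rw [← hu.dvd_mul_left, hd']
    exact dvd_mul_left _ _
  have hdprim : d ∣ e.primPart.map (algebraMap R K) := by
    have hu : IsUnit (C (algebraMap R K e.content)) := isUnit_C.mpr (isUnit_iff_ne_zero.mpr h0)
    rw [← hu.dvd_mul_left, ← hd']
    exact dvd_mul_left _ _
  have hunit : IsUnit e.primPart := h
    ((isPrimitive_primPart e).dvd_of_fraction_map_dvd_fraction_map (hprim.trans hF))
    ((isPrimitive_primPart e).dvd_of_fraction_map_dvd_fraction_map (hprim.trans hG))
  exact isUnit_of_dvd_unit hdprim (hunit.map (mapRingHom (algebraMap R K)))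

/-- A nonzero constant is a combination of two coprime polynomials. -/
theorem exists_combination {R : Type*} [CommRing R] [IsDomain R] [IsGCDMonoid R] {F G : R[X]}
    (h : IsRelPrime F G) : ∃ (r : R) (A B : R[X]), r ≠ 0 ∧ A * F + B * G = C r := by
  obtain ⟨a, b, hab⟩ := isCoprime_map (FractionRing R) h
  obtain ⟨c, hc, hca⟩ := IsLocalization.integerNormalization_spec (nonZeroDivisors R) a
  obtain ⟨d, hd, hdb⟩ := IsLocalization.integerNormalization_spec (nonZeroDivisors R) b
  set a' := IsLocalization.integerNormalization (nonZeroDivisors R) a
  set b' := IsLocalization.integerNormalization (nonZeroDivisors R) b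
  refine ⟨c * d, C d * a', C c * b', mul_ne_zero (nonZeroDivisors.ne_zero hc)
    (nonZeroDivisors.ne_zero hd), ?_⟩
  apply map_injective (algebraMap R (FractionRing R)) (IsFractionRing.injective R _)
  rw [Polynomial.map_add, Polynomial.map_mul, Polynomial.map_mul, Polynomial.map_mul,
    Polynomial.map_mul, hca, hdb, map_C, map_C, map_C, Algebra.smul_def, Algebra.smul_def,
    Polynomial.algebraMap_apply, Polynomial.algebraMap_apply, map_mul, C_mul]
  linear_combination (C (algebraMap R (FractionRing R) c) * C (algebraMap R (FractionRing R) d)) *
    hab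

/-- Elimination of the variable `d`. -/
theorem exists_elim {k σ : Type*} [Field k] [DecidableEq σ] (d : σ) {F G : MvPolynomial σ k}
    (h : IsRelPrime F G) : ∃ r : MvPolynomial {j : σ // j ≠ d} k, r ≠ 0 ∧
      ∀ (A : Type*) [CommRing A] [Algebra k A] (x : σ → A), MvPolynomial.aeval x F = 0 →
        MvPolynomial.aeval x G = 0 → MvPolynomial.aeval (fun j : {j : σ // j ≠ d} => x j) r = 0 := by
  classical
  let E : MvPolynomial σ k ≃ₐ[k] (MvPolynomial {j : σ // j ≠ d} k)[X] :=
    (MvPolynomial.renameEquiv k (Equiv.optionSubtypeNe d).symm).trans
      (MvPolynomial.optionEquivLeft k {j : σ // j ≠ d})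
  have h' : IsRelPrime (E F) (E G) := by
    intro u hu hv
    have h1 : E.symm u ∣ F := by
      have := map_dvd E.symm hu
      rwa [AlgEquiv.symm_apply_apply] at this
    have h2 : E.symm u ∣ G := by
      have := map_dvd E.symm hv
      rwa [AlgEquiv.symm_apply_apply] at this
    have := (h h1 h2).map E
    rwa [AlgEquiv.apply_symm_apply] at this
  obtain ⟨r, A, B, hr, hAB⟩ := exists_combination h'
  refine ⟨r, hr, fun S _ _ x hF hG => ?_⟩
  let φ : (MvPolynomial {j : σ // j ≠ d} k)[X] →+* S :=
    eval₂RingHom (MvPolynomial.aeval (fun j : {j : σ // j ≠ d} => x j)).toRingHom (x d)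
  have hφ : ∀ p : MvPolynomial σ k, φ (E p) = MvPolynomial.aeval x p := by
    intro p
    induction p using MvPolynomial.induction_on with
    | C a =>
      simp [φ, E, MvPolynomial.optionEquivLeft_C]
    | add p q hp hq => rw [map_add, map_add, map_add, hp, hq]
    | mul_X p j hp =>
      rw [map_mul, map_mul, map_mul, hp]
      congr 1
      by_cases hj : j = d
      · subst hj
        simp [φ, E]
      · simp [φ, E, hj]
  have := congrArg φ hAB
  rw [map_add, map_mul, map_mul, hφ, hφ, hF, hG, mul_zero, mul_zero, add_zero] at this
  simpa [φ] using this.symm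

end Pool.Agent.Helper16.CY
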