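import Mathlib
import Pool.Agent.Helper16.CY.Elim

/-!
# Common zeros of two coprime forms in four variables with a given transcendental ratio

Let `F`, `G` be two coprime forms in four variables over an infinite field `k` and let `u` be an
element of an extension field which is transcendental over `k`.  Then the common zeros `x` with
`x a = 1` and `x b = u` are finite in number.
-/

namespace Pool.Agent.Helper16.CY

open MvPolynomial

theorem aeval_smul_hom {k Ω σ : Type*} [Field k] [CommRing Ω] [Algebra k Ω] {p : MvPolynomial σ k}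
    {d : ℕ} (hp : p.IsHomogeneous d) (x : σ → Ω) (c : Ω) :
    aeval (fun j => c * x j) p = c ^ d * aeval x p := by
  rw [aeval_def, aeval_def, eval₂_eq, eval₂_eq, Finset.mul_sum]
  refine Finset.sum_congr rfl fun m hm => ?_
  have hn := hp.degree_eq_sum_deg_support hm
  simp only [mul_pow]
  rw [Finset.prod_mul_distrib, Finset.prod_pow_eq_pow_sum, ← hn]
  ring

theorem aeval_smul_comp {k Ω σ : Type*} [Field k] [CommRing Ω] [Algebra k Ω] (r : MvPolynomial σ k)
    (x : σ → Ω) (c : Ω) : aeval (fun j => c * x j) r =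
      ∑ i ∈ Finset.range (r.totalDegree + 1), c ^ i * aeval x (homogeneousComponent i r) := by
  conv_lhs => rw [← sum_homogeneousComponent r]
  rw [map_sum]
  refine Finset.sum_congr rfl fun i _ => ?_
  exact aeval_smul_hom (homogeneousComponent_isHomogeneous i r) x c

/-- If a polynomial vanishes at all multiples of a point, then so do its homogeneous components. -/
theorem component_zero {k Ω σ : Type*} [Field k] [Infinite k] [CommRing Ω] [IsDomain Ω]
    [Algebra k Ω]
    (r : MvPolynomial σ k) (x : σ → Ω) (h : ∀ c : Ω, aeval (fun j => c * x j) r = 0) (e : ℕ) :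
    aeval x (homogeneousComponent e r) = 0 := by
  have hΩ : Infinite Ω := Infinite.of_injective _ (algebraMap k Ω).injective
  let P : Polynomial Ω := ∑ i ∈ Finset.range (r.totalDegree + 1),
    Polynomial.C (aeval x (homogeneousComponent i r)) * Polynomial.X ^ i
  have hP : P = 0 := by
    apply Polynomial.funext
    intro c
    have := h c
    rw [aeval_smul_comp] at this
    simp only [P, Polynomial.eval_finsetSum, Polynomial.eval_mul, Polynomial.eval_C,
      Polynomial.eval_pow, Polynomial.eval_X, Polynomial.eval_zero]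
    rw [← this]
    exact Finset.sum_congr rfl fun i _ => mul_comm _ _
  have h2 := congrArg (fun p => Polynomial.coeff p e) hP
  simp only [P, Polynomial.finsetSum_coeff, Polynomial.coeff_C_mul, Polynomial.coeff_X_pow,
    Polynomial.coeff_zero, mul_ite, mul_one, mul_zero, Finset.sum_ite_eq, Finset.mem_range] at h2
  by_cases he : e < r.totalDegree + 1
  · rwa [if_pos he] at h2
  · rw [homogeneousComponent_eq_zero _ _ (by omega), map_zero]

/-- The common zeros of two coprime forms in four variables with `x a = 1`, `x b = u`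
transcendental have finitely many values of each other coordinate. -/
theorem fin_val {k Ω : Type*} [Field k] [Infinite k] [Field Ω] [Algebra k Ω]
    {F G : MvPolynomial (Fin 4) k} {e1 e2 : ℕ} (hF : F.IsHomogeneous e1) (hG : G.IsHomogeneous e2)
    (h : IsRelPrime F G) {a b c d : Fin 4} (hab : a ≠ b) (had : a ≠ d) (hbd : b ≠ d)
    (hcd : c ≠ d) (hac : a ≠ c) (hbc : b ≠ c)
    (hall : ∀ j, j = a ∨ j = b ∨ j = c ∨ j = d) {u : Ω} (hu : Transcendental k u) :
    {v : Ω | ∃ x : Fin 4 → Ω, x a = 1 ∧ x b = u ∧ x c = v ∧ aeval x F = 0 ∧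
      aeval x G = 0}.Finite := by
  classical
  obtain ⟨r, hr0, hr⟩ := exists_elim d h
  obtain ⟨e, he⟩ : ∃ e, homogeneousComponent e r ≠ 0 := by
    by_contra hne
    push Not at hne
    apply hr0
    rw [← sum_homogeneousComponent r]
    exact Finset.sum_eq_zero fun i _ => hne i
  set ρ := homogeneousComponent e r with hρ
  have hρh : ρ.IsHomogeneous e := homogeneousComponent_isHomogeneous e r
  -- a point where `ρ` does not vanish
  obtain ⟨p, hp⟩ : ∃ p : {j : Fin 4 // j ≠ d} → k, eval p (ρ * X ⟨a, had⟩) ≠ 0 := by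
    by_contra hne
    push Not at hne
    have : ρ * X ⟨a, had⟩ = 0 := MvPolynomial.funext fun p => by rw [hne p, map_zero]
    exact mul_ne_zero he (X_ne_zero _) this
  rw [map_mul, eval_X] at hp
  have hpa : p ⟨a, had⟩ ≠ 0 := right_ne_zero_of_mul hp
  have hpρ : eval p ρ ≠ 0 := left_ne_zero_of_mul hp
  let p' : {j : Fin 4 // j ≠ d} → k := fun j => (p ⟨a, had⟩)⁻¹ * p j
  have hp' : aeval p' ρ ≠ 0 := by
    rw [aeval_smul_hom hρh]
    refine mul_ne_zero (pow_ne_zero _ (inv_ne_zero hpa)) ?_
    rw [aeval_eq_eval]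
    exact hpρ
  have hp'a : p' ⟨a, had⟩ = 1 := inv_mul_cancel₀ hpa
  let q : Polynomial k := aeval (fun j : {j : Fin 4 // j ≠ d} => if j.1 = a then 1 else
    if j.1 = b then Polynomial.X else Polynomial.C (p' ⟨c, hcd⟩)) ρ
  have hq : q ≠ 0 := by
    intro hq0
    apply hp'
    have h1 : Polynomial.aeval (p' ⟨b, hbd⟩) q = aeval p' ρ := by
      simp only [q]
      rw [comp_aeval_apply]
      congr 1
      apply congrArg
      funext j
      obtain ⟨j, hj⟩ := j
      rcases hall j with rfl | rfl | rfl | rfl
      · simp [hp'a]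
      · simp [hab.symm]
      · simp [hac.symm, hbc.symm]
      · exact absurd rfl hj
    rw [← h1, hq0, map_zero]
  let P : Polynomial Ω := aeval (fun j : {j : Fin 4 // j ≠ d} => if j.1 = a then 1 else
    if j.1 = b then Polynomial.C u else Polynomial.X) ρ
  have hPval : ∀ (v : Ω) (x : Fin 4 → Ω), x a = 1 → x b = u → x c = v →
      Polynomial.eval v P = aeval (fun j : {j : Fin 4 // j ≠ d} => x j) ρ := by
    intro v x ha hb hc
    have h1 : Polynomial.eval v P = (Polynomial.aeval v).restrictScalars k P := by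
      simp [Polynomial.aeval_def]
    rw [h1]
    simp only [P]
    rw [comp_aeval_apply]
    congr 1
    apply congrArg
    funext j
    obtain ⟨j, hj⟩ := j
    rcases hall j with rfl | rfl | rfl | rfl
    · simp [ha]
    · simp [hab.symm, hb]
    · simp [hac.symm, hbc.symm, hc]
    · exact absurd rfl hj
  have hP : P ≠ 0 := by
    intro hP0
    apply hq
    rw [transcendental_iff] at hu
    apply hu
    have h1 := hPval (algebraMap k Ω (p' ⟨c, hcd⟩)) (fun j => if j = a then 1 else if j = b then u
      else algebraMap k Ω (p' ⟨c, hcd⟩)) (by simp) (by simp [hab.symm])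
      (by simp [hac.symm, hbc.symm])
    rw [hP0, Polynomial.eval_zero] at h1
    rw [h1]
    simp only [q]
    rw [comp_aeval_apply]
    congr 1
    apply congrArg
    funext j
    obtain ⟨j, hj⟩ := j
    rcases hall j with rfl | rfl | rfl | rfl
    · simp
    · simp [hab.symm]
    · simp [hac.symm, hbc.symm]
    · exact absurd rfl hj
  refine (P.roots.toFinset.finite_toSet).subset ?_
  rintro v ⟨x, ha, hb, hc, hFx, hGx⟩
  rw [Finset.mem_coe, Multiset.mem_toFinset, Polynomial.mem_roots hP, Polynomial.IsRoot.def,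
    hPval v x ha hb hc]
  apply component_zero
  intro t
  exact hr Ω (fun j => t * x j) (by rw [aeval_smul_hom hF, hFx, mul_zero])
    (by rw [aeval_smul_hom hG, hGx, mul_zero])

/-- The common zeros of two coprime forms in four variables with `x a = 1` and `x b`
transcendental are finite in number. -/
theorem fin_zero {k Ω : Type*} [Field k] [Infinite k] [Field Ω] [Algebra k Ω]
    {F G : MvPolynomial (Fin 4) k} {e1 e2 : ℕ} (hF : F.IsHomogeneous e1) (hG : G.IsHomogeneous e2)
    (h : IsRelPrime F G) {a b : Fin 4} {u : Ω} (hu : Transcendental k u) :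
    {x : Fin 4 → Ω | x a = 1 ∧ x b = u ∧ aeval x F = 0 ∧ aeval x G = 0}.Finite := by
  have hu1 : u ≠ 1 := by
    rintro rfl
    exact hu (isAlgebraic_one)
  by_cases hab : a = b
  · subst hab
    refine Set.Finite.subset Set.finite_empty ?_
    rintro x ⟨h1, h2, -⟩
    exact (hu1 (h2.symm.trans h1)).elim
  have key : ∀ c : Fin 4, {v : Ω | ∃ x : Fin 4 → Ω, x a = 1 ∧ x b = u ∧ x c = v ∧
      aeval x F = 0 ∧ aeval x G = 0}.Finite := by
    intro c
    by_cases hca : c = a
    · subst hca
      refine (Set.finite_singleton (1 : Ω)).subset ?_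
      rintro v ⟨x, h1, h2, h3, -⟩
      exact h3.symm.trans h1
    by_cases hcb : c = b
    · subst hcb
      refine (Set.finite_singleton u).subset ?_
      rintro v ⟨x, h1, h2, h3, -⟩
      exact h3.symm.trans h2
    obtain ⟨d, hd1, hd2, hd3, hd4⟩ : ∃ d : Fin 4, a ≠ d ∧ b ≠ d ∧ c ≠ d ∧
        ∀ j, j = a ∨ j = b ∨ j = c ∨ j = d := by
      revert a b c
      decide
    exact fin_val hF hG h hab hd1 hd2 hd3 (Ne.symm hca) (Ne.symm hcb) hd4 hu
  refine (Set.Finite.pi' key).subset ?_
  rintro x ⟨h1, h2, h3, h4⟩ c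
  exact ⟨x, h1, h2, rfl, h3, h4⟩

end Pool.Agent.Helper16.CY
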