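import Mathlib
import Pool.Agent.Helper16.CY.Val

/-!
# Coprime forms on a family of arcs through one point

Let `x i` be arcs in affine space of dimension four (in homogeneous coordinates) through one point,
whose tangent directions, projected to two of the coordinates, take each value finitely often.  Then
two coprime forms vanish together on finitely many of the arcs only.

Proof: elimination gives a nonzero form `ρ` in three of the variables which vanishes on these arcs;
`ρ (1, T, T C) = T ^ m q (C, T)` with `q (C, 0) ≠ 0`, and `q (κ i, 0) = 0` for the slopes `κ i`.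
-/

namespace Pool.Agent.Helper16.CY

open MvPolynomial

/-- The form of the statement with power series. -/
theorem fin_arc {k : Type*} [Field k] [Infinite k] {F G : MvPolynomial (Fin 4) k} {e1 e2 : ℕ}
    (hF : F.IsHomogeneous e1) (hG : G.IsHomogeneous e2) (h : IsRelPrime F G)
    {z a b d : Fin 4} (hza : z ≠ a) (hzb : z ≠ b) (hzd : z ≠ d) (hab : a ≠ b) (had : a ≠ d)
    (hbd : b ≠ d) {ι : Type*} (x : ι → Fin 4 → PowerSeries k)
    (hz : ∀ i, PowerSeries.constantCoeff (x i z) ≠ 0)
    (ha : ∀ i, PowerSeries.constantCoeff (x i a) = 0)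
    (hb : ∀ i, PowerSeries.constantCoeff (x i b) = 0)
    (ha1 : ∀ i, PowerSeries.coeff 1 (x i a) ≠ 0)
    (hfin : ∀ κ : k, {i | PowerSeries.coeff 1 (x i b) = κ * PowerSeries.coeff 1 (x i a)}.Finite) :
    {i | aeval (x i) F = 0 ∧ aeval (x i) G = 0}.Finite := by
  classical
  have hall : ∀ j : Fin 4, j = z ∨ j = a ∨ j = b ∨ j = d := by
    clear hz ha hb ha1 hfin
    revert z a b d
    decide
  obtain ⟨r, hr0, hr⟩ := exists_elim d h
  obtain ⟨e, he⟩ : ∃ e, homogeneousComponent e r ≠ 0 := by
    by_contra hne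
    push Not at hne
    apply hr0
    rw [← sum_homogeneousComponent r]
    exact Finset.sum_eq_zero fun i _ => hne i
  set ρ := homogeneousComponent e r with hρ
  have hρh : ρ.IsHomogeneous e := homogeneousComponent_isHomogeneous e r
  let Q : Polynomial (Polynomial k) := aeval (fun j : {j : Fin 4 // j ≠ d} => if j.1 = z then 1 else
    if j.1 = a then Polynomial.X else Polynomial.X * Polynomial.C Polynomial.X) ρ
  -- values of `Q`
  have hval : ∀ (A : Type _) [CommRing A] [Algebra k A] (τ c : A),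
      Polynomial.eval₂AlgHom (Polynomial.aeval c : Polynomial k →ₐ[k] A) τ
        (fun _ => Commute.all _ _) Q =
      aeval (fun j : {j : Fin 4 // j ≠ d} => if j.1 = z then 1 else
        if j.1 = a then τ else τ * c) ρ := by
    intro A _ _ τ c
    simp only [Q]
    rw [comp_aeval_apply]
    congr 1
    apply congrArg
    funext j
    obtain ⟨j, hj⟩ := j
    rcases hall j with rfl | rfl | rfl | rfl
    · simp
    · simp [hza.symm]
    · simp only [hzb.symm, hab.symm, if_false]
      rw [map_mul, Polynomial.eval₂AlgHom_apply, Polynomial.eval₂AlgHom_apply, Polynomial.eval₂_X,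
        Polynomial.eval₂_C]
      simp
    · exact absurd rfl hj
  have hQ : Q ≠ 0 := by
    obtain ⟨p, hp⟩ : ∃ p : {j : Fin 4 // j ≠ d} → k,
        eval p (ρ * (X ⟨z, hzd⟩ * X ⟨a, had⟩)) ≠ 0 := by
      by_contra hne
      push Not at hne
      have : ρ * (X ⟨z, hzd⟩ * X ⟨a, had⟩) = 0 :=
        MvPolynomial.funext fun p => by rw [hne p, map_zero]
      exact mul_ne_zero he (mul_ne_zero (X_ne_zero _) (X_ne_zero _)) this
    rw [map_mul, map_mul, eval_X, eval_X] at hp
    have hpρ : eval p ρ ≠ 0 := left_ne_zero_of_mul hp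
    have hpz : p ⟨z, hzd⟩ ≠ 0 := left_ne_zero_of_mul (right_ne_zero_of_mul hp)
    have hpa : p ⟨a, had⟩ ≠ 0 := right_ne_zero_of_mul (right_ne_zero_of_mul hp)
    intro hQ0
    have h1 := hval k ((p ⟨z, hzd⟩)⁻¹ * p ⟨a, had⟩) ((p ⟨a, had⟩)⁻¹ * p ⟨b, hbd⟩)
    rw [hQ0, map_zero] at h1
    have h2 : (fun j : {j : Fin 4 // j ≠ d} => if j.1 = z then (1 : k) else
        if j.1 = a then (p ⟨z, hzd⟩)⁻¹ * p ⟨a, had⟩ else
          (p ⟨z, hzd⟩)⁻¹ * p ⟨a, had⟩ * ((p ⟨a, had⟩)⁻¹ * p ⟨b, hbd⟩)) =
        fun j => (p ⟨z, hzd⟩)⁻¹ * p j := by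
      funext j
      obtain ⟨j, hj⟩ := j
      rcases hall j with rfl | rfl | rfl | rfl
      · simp [hpz]
      · simp [hza.symm]
      · simp [hzb.symm, hab.symm]
        field_simp
      · exact absurd rfl hj
    rw [h2, aeval_smul_hom hρh, aeval_eq_eval] at h1
    exact mul_ne_zero (pow_ne_zero _ (inv_ne_zero hpz)) hpρ h1.symm
  obtain ⟨q, hq, hq0⟩ := Polynomial.exists_eq_pow_rootMultiplicity_mul_and_not_dvd Q hQ 0
  rw [Polynomial.C_0, sub_zero] at hq hq0
  rw [Polynomial.X_dvd_iff] at hq0
  set m := Polynomial.rootMultiplicity 0 Q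
  have hsub : {i | aeval (x i) F = 0 ∧ aeval (x i) G = 0} ⊆
      ⋃ κ ∈ (q.coeff 0).roots.toFinset,
        {i | PowerSeries.coeff 1 (x i b) = κ * PowerSeries.coeff 1 (x i a)} := by
    rintro i ⟨hFi, hGi⟩
    -- the arc in the form `(1, τ, τ c)`
    obtain ⟨A, hA⟩ : (PowerSeries.X : PowerSeries k) ∣ x i a := PowerSeries.X_dvd_iff.mpr (ha i)
    obtain ⟨B, hB⟩ : (PowerSeries.X : PowerSeries k) ∣ x i b := PowerSeries.X_dvd_iff.mpr (hb i)
    have hA0 : PowerSeries.constantCoeff A = PowerSeries.coeff 1 (x i a) := by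
      rw [hA, ← PowerSeries.coeff_zero_eq_constantCoeff_apply]
      exact (PowerSeries.coeff_succ_X_mul 0 A).symm
    have hB0 : PowerSeries.constantCoeff B = PowerSeries.coeff 1 (x i b) := by
      rw [hB, ← PowerSeries.coeff_zero_eq_constantCoeff_apply]
      exact (PowerSeries.coeff_succ_X_mul 0 B).symm
    have hAne : PowerSeries.constantCoeff A ≠ 0 := by
      rw [hA0]
      exact ha1 i
    set u := (x i z)⁻¹
    have hu : u * x i z = 1 := PowerSeries.inv_mul_cancel _ (hz i)
    set c := A⁻¹ * B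
    have hAc : A * c = B := by
      rw [← mul_assoc, PowerSeries.mul_inv_cancel _ hAne, one_mul]
    set τ := u * x i a
    have hτ0 : PowerSeries.constantCoeff τ = 0 := by
      rw [map_mul, ha i, mul_zero]
    have hτ : τ ≠ 0 := by
      intro h0
      have h1 : x i a = 0 := by
        rcases mul_eq_zero.mp h0 with h2 | h2
        · rw [h2, zero_mul] at hu
          exact absurd hu zero_ne_one
        · exact h2
      apply ha1 i
      rw [h1, map_zero]
    have hτc : τ * c = u * x i b := by
      rw [hB, ← hAc]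
      simp only [τ]
      rw [hA]
      ring
    have h0 : aeval (fun j : {j : Fin 4 // j ≠ d} => x i j) ρ = 0 := by
      apply component_zero
      intro t
      exact hr (PowerSeries k) (fun j => t * x i j) (by rw [aeval_smul_hom hF, hFi, mul_zero])
        (by rw [aeval_smul_hom hG, hGi, mul_zero])
    have h1 := hval (PowerSeries k) τ c
    have h2 : (fun j : {j : Fin 4 // j ≠ d} => if j.1 = z then 1 else
        if j.1 = a then τ else τ * c) = fun j : {j : Fin 4 // j ≠ d} => u * x i j := by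
      funext j
      obtain ⟨j, hj⟩ := j
      rcases hall j with rfl | rfl | rfl | rfl
      · simp [hu]
      · simp [hza.symm, τ]
      · simp [hzb.symm, hab.symm, hτc]
      · exact absurd rfl hj
    rw [h2, aeval_smul_hom hρh, h0, mul_zero, hq, map_mul, map_pow] at h1
    have h3 : (Polynomial.eval₂AlgHom (Polynomial.aeval c : Polynomial k →ₐ[k] PowerSeries k) τ
        (fun _ => Commute.all _ _)) Polynomial.X = τ := by
      simp
    rw [h3] at h1
    have h4 := (mul_eq_zero.mp h1).resolve_left (pow_ne_zero _ hτ)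
    have h5 := congrArg PowerSeries.constantCoeff h4
    rw [map_zero, Polynomial.eval₂AlgHom_apply, Polynomial.hom_eval₂, hτ0,
      Polynomial.eval₂_at_zero] at h5
    have hκ : PowerSeries.constantCoeff c * PowerSeries.coeff 1 (x i a) =
        PowerSeries.coeff 1 (x i b) := by
      rw [← hA0, ← hB0, ← map_mul, mul_comm, hAc]
    have h6 : Polynomial.eval (PowerSeries.constantCoeff c) (q.coeff 0) = 0 := by
      rw [← h5, RingHom.comp_apply]
      change Polynomial.eval (PowerSeries.constantCoeff c) (q.coeff 0) =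
        PowerSeries.constantCoeff (Polynomial.aeval c (q.coeff 0))
      rw [Polynomial.aeval_def, Polynomial.hom_eval₂, Polynomial.eval]
      congr 1
    rw [Set.mem_iUnion]
    refine ⟨PowerSeries.constantCoeff c, ?_⟩
    rw [Set.mem_iUnion]
    refine ⟨?_, hκ.symm⟩
    rw [Multiset.mem_toFinset, Polynomial.mem_roots hq0]
    exact h6
  exact ((q.coeff 0).roots.toFinset.finite_toSet.biUnion fun κ _ => hfin κ).subset hsub

/-- The form of the statement with points of an extension ring of the ring of power series. -/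
theorem fin_arc' {k : Type*} [Field k] [Infinite k] {Ω : Type*} [CommRing Ω] [IsDomain Ω]
    [Algebra k Ω] (φ : PowerSeries k →ₐ[k] Ω) (hφ : Function.Injective φ)
    {F G : MvPolynomial (Fin 4) k} {e1 e2 : ℕ}
    (hF : F.IsHomogeneous e1) (hG : G.IsHomogeneous e2) (h : IsRelPrime F G)
    {z a b d : Fin 4} (hza : z ≠ a) (hzb : z ≠ b) (hzd : z ≠ d) (hab : a ≠ b) (had : a ≠ d)
    (hbd : b ≠ d) {ι : Type*} (X : ι → Fin 4 → Ω) (x : ι → Fin 4 → PowerSeries k)
    (hX : ∀ i, ∃ l : Ω, l ≠ 0 ∧ ∀ j, X i j = l * φ (x i j))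
    (hz : ∀ i, PowerSeries.constantCoeff (x i z) ≠ 0)
    (ha : ∀ i, PowerSeries.constantCoeff (x i a) = 0)
    (hb : ∀ i, PowerSeries.constantCoeff (x i b) = 0)
    (ha1 : ∀ i, PowerSeries.coeff 1 (x i a) ≠ 0)
    (hfin : ∀ κ : k, {i | PowerSeries.coeff 1 (x i b) = κ * PowerSeries.coeff 1 (x i a)}.Finite) :
    {i | aeval (X i) F = 0 ∧ aeval (X i) G = 0}.Finite := by
  refine (fin_arc hF hG h hza hzb hzd hab had hbd x hz ha hb ha1 hfin).subset ?_
  have key : ∀ (P : MvPolynomial (Fin 4) k) (e : ℕ), P.IsHomogeneous e → ∀ i,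
      aeval (X i) P = 0 → aeval (x i) P = 0 := by
    intro P e hP i h0
    obtain ⟨l, hl, hlX⟩ := hX i
    have h1 : X i = fun j => l * φ (x i j) := funext hlX
    rw [h1, aeval_smul_hom hP] at h0
    have h2 := (mul_eq_zero.mp h0).resolve_left (pow_ne_zero _ hl)
    apply hφ
    rw [map_zero, comp_aeval_apply]
    exact h2
  rintro i ⟨h1, h2⟩
  exact ⟨key F e1 hF i h1, key G e2 hG i h2⟩

end Pool.Agent.Helper16.CY
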