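import Mathlib
import Pool.Agent.Helper92.CY.Defs
import Pool.Agent.Helper12.CYJ.Jets
import Pool.Agent.Helper37.CYL.Step

/-!
# The orbit of a point under the infinite dihedral group

With `v = ξ3 + δ η3` one has `v ↦ -v - 2 F1` under the first involution and `v ↦ -v - F2 / m` under
the second one (if `ξ1 = 1`), so `v` grows linearly and `ξ3`, `η3` are quadratic polynomials.
-/

namespace Pool.Agent.Helper16.CY

open MvPolynomial Pool.Agent.Helper37.RP Pool.Agent.Helper76.CY Pool.Agent.Helper92.CY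

/-- Finitely many integers are zeros of a quadratic polynomial. -/
theorem finite_quad {k : Type*} [Field k] [CharZero k] {a b c : k} (ha : a ≠ 0) :
    {n : ℤ | a * (n : k) ^ 2 + b * n + c = 0}.Finite := by
  classical
  have hP : Polynomial.C a * Polynomial.X ^ 2 + Polynomial.C b * Polynomial.X +
      Polynomial.C c ≠ 0 := by
    intro h
    have h1 := Polynomial.natDegree_quadratic (b := b) (c := c) ha
    rw [h] at h1
    simp at h1
  refine Set.Finite.of_finite_image (f := fun n : ℤ => (n : k)) ?_ Int.cast_injective.injOn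
  refine ((Polynomial.C a * Polynomial.X ^ 2 + Polynomial.C b * Polynomial.X +
      Polynomial.C c).roots.toFinset.finite_toSet).subset ?_
  rintro _ ⟨n, hn, rfl⟩
  rw [Finset.mem_coe, Multiset.mem_toFinset, Polynomial.mem_roots hP, Polynomial.IsRoot.def]
  simpa using hn

/-- The numerical recursion. -/
theorem rec_quad {k : Type*} [Field k] [CharZero k] {v ξ : ℤ → k} {e g : k}
    (hv : ∀ n, v (n + 1) = v n + e) (hξ : ∀ n, ξ (n + 1) = ξ n + 2 * v n + g) (n : ℤ) :
    v n = v 0 + e * n ∧ ξ n = e * n ^ 2 + (2 * v 0 + g - e) * n + ξ 0 := by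
  induction n using Int.induction_on with
  | zero => simp
  | succ n ih =>
    rw [hv, hξ, ih.1, ih.2]
    push_cast
    constructor <;> ring
  | pred n ih =>
    have h1 := hv (-(n : ℤ) - 1)
    have h2 := hξ (-(n : ℤ) - 1)
    rw [sub_add_cancel] at h1 h2
    have h3 : v (-(n : ℤ) - 1) = v 0 + e * ((-(n : ℤ) - 1 : ℤ) : k) := by
      rw [ih.1] at h1
      push_cast at h1 ⊢
      linear_combination -h1
    refine ⟨h3, ?_⟩
    rw [ih.2, h3] at h2
    push_cast at h2 ⊢
    linear_combination -h2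

section mem

variable {k : Type*} [Field k] (S : Subring (PowerSeries k))

theorem plk_mem {a b : Fin 4 → PowerSeries k} (ha : ∀ i, a i ∈ S) (hb : ∀ i, b i ∈ S)
    (i j : Fin 4) : plk a b i j ∈ S :=
  S.sub_mem (S.mul_mem (ha i) (hb j)) (S.mul_mem (ha j) (hb i))

theorem N4_mem {a b : Fin 4 → PowerSeries k} (ha : ∀ i, a i ∈ S) (hb : ∀ i, b i ∈ S)
    (i j : Fin 4) : N4 a b i j ∈ S := by
  have h := plk_mem S ha hb
  fin_cases i <;> fin_cases j <;> simp [N4, h, S.zero_mem]

theorem chow_mem {L L' : Matrix (Fin 4) (Fin 4) k} {Q : Fin 4 → Fin 4 → Fin 4 → Fin 4 → k}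
    (hL : ∀ i j, PowerSeries.C (L i j) ∈ S) (hL' : ∀ i j, PowerSeries.C (L' i j) ∈ S)
    (hQ : ∀ i j m l, PowerSeries.C (Q i j m l) ∈ S) {y : Fin 4 → PowerSeries k}
    (hy : ∀ j, y j ∈ S) (i j : Fin 4) : aeval y (chow4 L L' Q i j) ∈ S := by
  have hC : ∀ a : k, algebraMap k (PowerSeries k) a = PowerSeries.C a := fun a => rfl
  have hl : ∀ i, aeval y (lin L i) ∈ S := by
    intro i
    rw [aeval_lin]
    exact S.sum_mem fun j _ => S.mul_mem (by rw [hC]; exact hL i j) (hy j)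
  have hl' : ∀ i, aeval y (lin L' i) ∈ S := by
    intro i
    rw [aeval_lin]
    exact S.sum_mem fun j _ => S.mul_mem (by rw [hC]; exact hL' i j) (hy j)
  have hq : ∀ i j, ((quad Q).map (aeval y : _ →ₐ[k] PowerSeries k)) i j ∈ S := by
    intro i j
    rw [Matrix.map_apply, aeval_quad]
    exact S.sum_mem fun m _ => S.sum_mem fun l _ =>
      S.mul_mem (by rw [hC]; exact hQ i j m l) (S.mul_mem (hy m) (hy l))
  have hN := N4_mem S hl hl'
  have h2 : (2 : PowerSeries k) ∈ S := by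
    have := S.add_mem S.one_mem S.one_mem
    rwa [one_add_one_eq_two] at this
  rw [aeval_chow4]
  exact S.mul_mem h2 (S.sum_mem fun a _ => S.sum_mem fun b _ =>
    S.mul_mem (S.mul_mem (hN _ _) (hq _ _)) (hN _ _))

variable {c : Ix → k} (hc : ∀ e, PowerSeries.C (c e) ∈ S) (hinv : ∀ p ∈ S, p⁻¹ ∈ S)

include hc in
theorem pQ_mem (i j m l : Fin 4) : PowerSeries.C (pQ c i j m l) ∈ S := by
  simp only [pQ, map_add]
  exact S.add_mem (S.add_mem (hc _) (hc _)) (S.add_mem (hc _) (hc _))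

include hc hinv in
theorem sgx_mem {x y : Fin 4 → PowerSeries k} (hx : ∀ j, x j ∈ S) (hy : ∀ j, y j ∈ S) (j : Fin 4) :
    sgx c y x j ∈ S := by
  have h2 : (2 : PowerSeries k) ∈ S := by
    have := S.add_mem S.one_mem S.one_mem
    rwa [one_add_one_eq_two] at this
  have h := chow_mem S (L := pL c) (L' := pL' c) (Q := pQ c) (fun i j => hc _) (fun i j => hc _)
    (pQ_mem S hc) hy
  exact S.sub_mem (S.mul_mem (S.mul_mem h2 (h 0 j)) (hinv _ (h 0 0))) (hx j)

include hc hinv in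
theorem sgy_mem {x y : Fin 4 → PowerSeries k} (hx : ∀ j, x j ∈ S) (hy : ∀ j, y j ∈ S) (j : Fin 4) :
    sgy c x y j ∈ S := by
  have h2 : (2 : PowerSeries k) ∈ S := by
    have := S.add_mem S.one_mem S.one_mem
    rwa [one_add_one_eq_two] at this
  have h := chow_mem S (L := fun i j => pL c j i) (L' := fun i j => pL' c j i)
    (Q := fun i j k l => pQ c k l i j) (fun i j => hc _) (fun i j => hc _)
    (fun i j m l => pQ_mem S hc m l i j) hx
  exact S.sub_mem (S.mul_mem (S.mul_mem h2 (h 0 j)) (hinv _ (h 0 0))) (hy j)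

end mem

/-- The orbit of a point; `hsx` and `hsy` are the statements on the two involutions. -/
theorem chain_of {k : Type*} [Field k] [CharZero k] {c : Ix → k} (hc : Gen c)
    (hsx : ∀ {x y : Fin 4 → PowerSeries k}, Near c x y →
      Near c (sgx c y x) y ∧ sgx c y (sgx c y x) = x ∧
      (∀ i j, 2 * aeval y (cG c i j) =
        aeval y (cG c 0 0) * (x i * sgx c y x j + x j * sgx c y x i)) ∧
      PowerSeries.coeff 1 (sgx c y x 1) = PowerSeries.coeff 1 (x 1) ∧
      PowerSeries.coeff 1 (sgx c y x 3) = - PowerSeries.coeff 1 (x 3) -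
        2 * F1 c * PowerSeries.coeff 1 (x 1) - 2 * del c * PowerSeries.coeff 1 (y 3))
    (hsy : ∀ {x y : Fin 4 → PowerSeries k}, Near c x y →
      Near c x (sgy c x y) ∧ sgy c x (sgy c x y) = y ∧
      (∀ i j, 2 * aeval x (cH c i j) =
        aeval x (cH c 0 0) * (y i * sgy c x y j + y j * sgy c x y i)) ∧
      PowerSeries.coeff 1 (sgy c x y 3) = - PowerSeries.coeff 1 (y 3) -
        (F2 c * PowerSeries.coeff 1 (x 1) + 2 * mm c * PowerSeries.coeff 1 (x 3)) /
          (mm c * del c))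
    {x y : Fin 4 → PowerSeries k}
    (h : Near c x y) (h1 : PowerSeries.coeff 1 (x 1) = 1) :
    ∃ X Y : ℤ × Bool → Fin 4 → PowerSeries k, X (0, false) = x ∧ Y (0, false) = y ∧
      (∀ i, Near c (X i) (Y i)) ∧ (∀ i, PowerSeries.coeff 1 (X i 1) = 1) ∧
      (∀ n b, X (n, !b) = sgx c (Y (n, b)) (X (n, b)) ∧ Y (n, !b) = Y (n, b)) ∧
      (∀ n, Y (n + 1, true) = sgy c (X (n, false)) (Y (n, false)) ∧
        X (n + 1, true) = X (n, false)) ∧
      (∀ n, Y (n - 1, false) = sgy c (X (n, true)) (Y (n, true)) ∧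
        X (n - 1, false) = X (n, true)) ∧
      (∀ v, {i | PowerSeries.coeff 1 (X i 3) = v}.Finite) ∧
      (∀ v, {i | PowerSeries.coeff 1 (Y i 3) = v}.Finite) ∧
      ∀ S : Subring (PowerSeries k), (∀ e, PowerSeries.C (c e) ∈ S) → (∀ p ∈ S, p⁻¹ ∈ S) →
        (∀ j, x j ∈ S) → (∀ j, y j ∈ S) → ∀ i j, X i j ∈ S ∧ Y i j ∈ S := by
  classical
  -- the set of points
  let P : Type _ := {z : (Fin 4 → PowerSeries k) × (Fin 4 → PowerSeries k) //
    Near c z.1 z.2 ∧ PowerSeries.coeff 1 (z.1 1) = 1}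
  let A : Equiv.Perm P :=
    { toFun := fun z => ⟨(sgx c z.1.2 z.1.1, z.1.2), (hsx z.2.1).1, by
        rw [(hsx z.2.1).2.2.2.1]; exact z.2.2⟩
      invFun := fun z => ⟨(sgx c z.1.2 z.1.1, z.1.2), (hsx z.2.1).1, by
        rw [(hsx z.2.1).2.2.2.1]; exact z.2.2⟩
      left_inv := fun z => Subtype.ext (Prod.ext (hsx z.2.1).2.1 rfl)
      right_inv := fun z => Subtype.ext (Prod.ext (hsx z.2.1).2.1 rfl) }
  let B : Equiv.Perm P :=
    { toFun := fun z => ⟨(z.1.1, sgy c z.1.1 z.1.2), (hsy z.2.1).1, z.2.2⟩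
      invFun := fun z => ⟨(z.1.1, sgy c z.1.1 z.1.2), (hsy z.2.1).1, z.2.2⟩
      left_inv := fun z => Subtype.ext (Prod.ext rfl (hsy z.2.1).2.1)
      right_inv := fun z => Subtype.ext (Prod.ext rfl (hsy z.2.1).2.1) }
  have hAA : ∀ z, A (A z) = z := A.left_inv
  have hBB : ∀ z, B (B z) = z := B.left_inv
  let F : Equiv.Perm P := A * B
  let z0 : P := ⟨(x, y), h, h1⟩
  let Z : ℤ × Bool → P := fun i => bif i.2 then A ((F ^ i.1) z0) else (F ^ i.1) z0
  have hZf : ∀ n, Z (n, false) = (F ^ n) z0 := fun n => rfl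
  have hZt : ∀ n, Z (n, true) = A ((F ^ n) z0) := fun n => rfl
  have hF : ∀ n : ℤ, (F ^ (n + 1)) z0 = A (B ((F ^ n) z0)) := by
    intro n
    rw [add_comm, zpow_add, zpow_one]
    rfl
  have r1 : ∀ n b, Z (n, !b) = A (Z (n, b)) := by
    intro n b
    cases b
    · rfl
    · exact (hAA _).symm
  have r2 : ∀ n, Z (n + 1, true) = B (Z (n, false)) := by
    intro n
    rw [hZt, hZf, hF, hAA]
  have r3 : ∀ n, Z (n - 1, false) = B (Z (n, true)) := by
    intro n
    have := hF (n - 1)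
    rw [sub_add_cancel] at this
    rw [hZt, hZf, this, hAA, hBB]
  -- the first order terms
  let ξ : ℤ → k := fun n => PowerSeries.coeff 1 (((F ^ n) z0).1.1 3)
  let η : ℤ → k := fun n => PowerSeries.coeff 1 (((F ^ n) z0).1.2 3)
  let v : ℤ → k := fun n => ξ n + del c * η n
  have hA3 : ∀ z : P, PowerSeries.coeff 1 ((A z).1.1 3) = - PowerSeries.coeff 1 (z.1.1 3) -
      2 * F1 c - 2 * del c * PowerSeries.coeff 1 (z.1.2 3) := by
    intro z
    have := (hsx z.2.1).2.2.2.2
    rw [z.2.2, mul_one] at this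
    exact this
  have hB3 : ∀ z : P, PowerSeries.coeff 1 ((B z).1.2 3) = - PowerSeries.coeff 1 (z.1.2 3) -
      (F2 c + 2 * mm c * PowerSeries.coeff 1 (z.1.1 3)) / (mm c * del c) := by
    intro z
    have := (hsy z.2.1).2.2.2
    rw [z.2.2, mul_one] at this
    exact this
  have hm := hc.hm
  have hd := hc.hd
  have hη : ∀ n, η (n + 1) = - η n - (F2 c + 2 * mm c * ξ n) / (mm c * del c) := by
    intro n
    simp only [η]
    rw [hF]
    exact hB3 _
  have hξ' : ∀ n, ξ (n + 1) = - ξ n - 2 * F1 c - 2 * del c * η (n + 1) := by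
    intro n
    simp only [ξ, η]
    rw [hF, hA3]
    rfl
  have hv : ∀ n, v (n + 1) = v n + (F2 c / mm c - 2 * F1 c) := by
    intro n
    simp only [v]
    rw [hξ', hη]
    field_simp
    ring
  have hξ : ∀ n, ξ (n + 1) = ξ n + 2 * v n + (2 * (F2 c / mm c) - 2 * F1 c) := by
    intro n
    simp only [v]
    rw [hξ', hη]
    field_simp
    ring
  set e : k := F2 c / mm c - 2 * F1 c with he
  set g : k := 2 * (F2 c / mm c) - 2 * F1 c with hg
  have he0 : e ≠ 0 := by
    rw [he, sub_ne_zero, Ne, div_eq_iff hm]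
    intro h2
    apply hc.he
    rw [h2]
    ring
  have hq := rec_quad hv hξ
  have hηv : ∀ n, η n = (v n - ξ n) / del c := by
    intro n
    simp only [v]
    rw [add_sub_cancel_left, mul_div_cancel_left₀ _ hd]
  have fin1 : ∀ w : k, {n : ℤ | ξ n = w}.Finite := by
    intro w
    refine (finite_quad (b := 2 * v 0 + g - e) (c := ξ 0 - w) he0).subset ?_
    intro n hn
    have hn' : ξ n = w := hn
    rw [(hq n).2] at hn'
    show e * (n : k) ^ 2 + (2 * v 0 + g - e) * n + (ξ 0 - w) = 0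
    linear_combination hn'
  have fin2 : ∀ w : k, {n : ℤ | η n = w}.Finite := by
    intro w
    refine (finite_quad (b := e - (2 * v 0 + g - e)) (c := v 0 - ξ 0 - w * del c)
      (neg_ne_zero.mpr he0)).subset ?_
    intro n hn
    have hn' : η n = w := hn
    rw [hηv, div_eq_iff hd, (hq n).1, (hq n).2] at hn'
    show -e * (n : k) ^ 2 + (e - (2 * v 0 + g - e)) * n + (v 0 - ξ 0 - w * del c) = 0
    linear_combination hn'
  have fin3 : ∀ w : k, {n : ℤ | PowerSeries.coeff 1 ((A ((F ^ n) z0)).1.1 3) = w}.Finite := by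
    intro w
    refine (finite_quad (b := 2 * v 0 + g - e - 2 * e) (c := ξ 0 - 2 * v 0 - 2 * F1 c - w)
      he0).subset ?_
    intro n hn
    have hn' : PowerSeries.coeff 1 ((A ((F ^ n) z0)).1.1 3) = w := hn
    rw [hA3] at hn'
    have hn2 : - ξ n - 2 * F1 c - 2 * del c * η n = w := hn'
    have h3 : del c * η n = v n - ξ n := by
      simp only [v]
      ring
    have h4 : ξ n - 2 * v n - 2 * F1 c = w := by
      rw [← hn2, mul_assoc, h3]
      ring
    rw [(hq n).1, (hq n).2] at h4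
    show e * (n : k) ^ 2 + (2 * v 0 + g - e - 2 * e) * n + (ξ 0 - 2 * v 0 - 2 * F1 c - w) = 0
    linear_combination h4
  refine ⟨fun i => (Z i).1.1, fun i => (Z i).1.2, ?_, ?_, fun i => (Z i).2.1, fun i => (Z i).2.2,
    fun n b => ?_, fun n => ?_, fun n => ?_, fun w => ?_, fun w => ?_, fun S hcS hinv hx hy => ?_⟩
  · simp [Z, z0]
  · simp [Z, z0]
  · simp only [r1]
    exact ⟨rfl, rfl⟩
  · simp only [r2]
    exact ⟨rfl, rfl⟩
  · simp only [r3]
    exact ⟨rfl, rfl⟩
  · refine (((fin1 w).image fun n => (n, false)).union ((fin3 w).image fun n => (n, true))).subset ?_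
    rintro ⟨n, b⟩ hn
    cases b
    · exact Or.inl ⟨n, hn, rfl⟩
    · exact Or.inr ⟨n, hn, rfl⟩
  · refine (((fin2 w).image fun n => (n, false)).union ((fin2 w).image fun n => (n, true))).subset ?_
    rintro ⟨n, b⟩ hn
    cases b
    · exact Or.inl ⟨n, hn, rfl⟩
    · exact Or.inr ⟨n, hn, rfl⟩
  · let good : P → Prop := fun z => (∀ j, z.1.1 j ∈ S) ∧ ∀ j, z.1.2 j ∈ S
    have hgA : ∀ z, good z → good (A z) := fun z hz =>
      ⟨fun j => sgx_mem S hcS hinv hz.1 hz.2 j, hz.2⟩
    have hgB : ∀ z, good z → good (B z) := fun z hz =>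
      ⟨hz.1, fun j => sgy_mem S hcS hinv hz.1 hz.2 j⟩
    have hgF : ∀ n : ℤ, good ((F ^ n) z0) := by
      intro n
      induction n using Int.induction_on with
      | zero => exact ⟨hx, hy⟩
      | succ n ih =>
        rw [hF]
        exact hgA _ (hgB _ ih)
      | pred n ih =>
        have h5 := hF (-(n : ℤ) - 1)
        rw [sub_add_cancel] at h5
        have h6 : (F ^ (-(n : ℤ) - 1)) z0 = B (A ((F ^ (-(n : ℤ))) z0)) := by
          rw [h5, hAA, hBB]
        rw [h6]
        exact hgB _ (hgA _ ih)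
    have hgZ : ∀ i, good (Z i) := by
      rintro ⟨n, b⟩
      cases b
      · exact hgF n
      · exact hgA _ (hgF n)
    exact fun i j => ⟨(hgZ i).1 j, (hgZ i).2 j⟩

/-- CY-3. The orbit under the infinite dihedral group. -/
theorem chain {k : Type*} [Field k] [CharZero k] {c : Ix → k} (hc : Gen c)
    {x y : Fin 4 → PowerSeries k}
    (h : Near c x y) (h1 : PowerSeries.coeff 1 (x 1) = 1) :
    ∃ X Y : ℤ × Bool → Fin 4 → PowerSeries k, X (0, false) = x ∧ Y (0, false) = y ∧
      (∀ i, Near c (X i) (Y i)) ∧ (∀ i, PowerSeries.coeff 1 (X i 1) = 1) ∧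
      (∀ n b, X (n, !b) = sgx c (Y (n, b)) (X (n, b)) ∧ Y (n, !b) = Y (n, b)) ∧
      (∀ n, Y (n + 1, true) = sgy c (X (n, false)) (Y (n, false)) ∧
        X (n + 1, true) = X (n, false)) ∧
      (∀ n, Y (n - 1, false) = sgy c (X (n, true)) (Y (n, true)) ∧
        X (n - 1, false) = X (n, true)) ∧
      (∀ v, {i | PowerSeries.coeff 1 (X i 3) = v}.Finite) ∧
      (∀ v, {i | PowerSeries.coeff 1 (Y i 3) = v}.Finite) ∧
      ∀ S : Subring (PowerSeries k), (∀ e, PowerSeries.C (c e) ∈ S) → (∀ p ∈ S, p⁻¹ ∈ S) →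
        (∀ j, x j ∈ S) → (∀ j, y j ∈ S) → ∀ i j, X i j ∈ S ∧ Y i j ∈ S :=
  chain_of hc
    (fun h' => Helper37.CYL.step_x two_ne_zero h' (Helper12.CYJ.jet_G hc.std two_ne_zero h'))
    (fun h' => Helper37.CYL.step_y two_ne_zero hc.hm hc.hd h'
      (Helper12.CYJ.jet_H hc.std two_ne_zero h')) h h1

end Pool.Agent.Helper16.CY
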