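import Mathlib

/-!
# Infinitely many distinct curves in an orbit

`f` is an automorphism of the ring `O`, `z : O → D` a point lying on the two curves `P`, `P'`, and
only finitely many points lie on both. If `z` is not periodic under `f` then the translates of one
of the two curves by the powers of `f` are pairwise distinct.
-/

set_option autoImplicit false

namespace Pool.Agent.Helper16.CY

theorem iterate_surj {O : Type*} [CommRing O] (f : O ≃+* O) (n : ℕ) (b : O) :
    ∃ a, f^[n] a = b := (f.surjective.iterate n) b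

/-- A coincidence between translates makes the set periodic. -/
theorem periodic_of_eq {O : Type*} [CommRing O] (f : O ≃+* O) (P : Set O) {i j : ℕ} (hij : i < j)
    (h : ∀ a, f^[i] a ∈ P ↔ f^[j] a ∈ P) : ∀ a, f^[j - i] a ∈ P ↔ a ∈ P := by
  intro b
  obtain ⟨a, rfl⟩ := iterate_surj f i b
  rw [← Function.iterate_add_apply, Nat.sub_add_cancel hij.le]
  exact (h a).symm

theorem periodic_mul {O : Type*} [CommRing O] (f : O ≃+* O) (P : Set O) {m : ℕ}
    (h : ∀ a, f^[m] a ∈ P ↔ a ∈ P) (k : ℕ) : ∀ a, f^[m * k] a ∈ P ↔ a ∈ P := by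
  induction k with
  | zero => intro a; simp
  | succ k ih =>
    intro a
    rw [Nat.mul_succ, Function.iterate_add_apply, ih, h]

/-- **Distinct translates.** -/
theorem distinct {O D : Type*} [CommRing O] [CommRing D] (f : O ≃+* O) (P P' : Set O)
    (z : O →+* D) (hzP : ∀ a ∈ P, z a = 0) (hzP' : ∀ a ∈ P', z a = 0)
    (hfin : {w : O →+* D | (∀ a ∈ P, w a = 0) ∧ ∀ a ∈ P', w a = 0}.Finite)
    (hper : ∀ n : ℕ, 0 < n → ¬ ∀ h, z (f^[n] h) = z h) :
    (∀ i j : ℕ, (∀ a, f^[i] a ∈ P ↔ f^[j] a ∈ P) → i = j) ∨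
      ∀ i j : ℕ, (∀ a, f^[i] a ∈ P' ↔ f^[j] a ∈ P') → i = j := by
  by_contra hcon
  push Not at hcon
  obtain ⟨⟨i, j, h, hij⟩, i', j', h', hij'⟩ := hcon
  have key : ∀ (Q : Set O) (i j : ℕ), i ≠ j → (∀ a, f^[i] a ∈ Q ↔ f^[j] a ∈ Q) →
      ∃ m : ℕ, 0 < m ∧ ∀ a, f^[m] a ∈ Q ↔ a ∈ Q := by
    intro Q i j hne hq
    rcases lt_or_gt_of_ne hne with hlt | hlt
    · exact ⟨j - i, Nat.sub_pos_of_lt hlt, periodic_of_eq f Q hlt hq⟩
    · exact ⟨i - j, Nat.sub_pos_of_lt hlt, periodic_of_eq f Q hlt fun a => (hq a).symm⟩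
  obtain ⟨m, hm, hmP⟩ := key P i j hij h
  obtain ⟨m', hm', hmP'⟩ := key P' i' j' hij' h'
  have hn : 0 < m * m' := Nat.mul_pos hm hm'
  set n := m * m' with hn'
  have h1 : ∀ k a, f^[n * k] a ∈ P ↔ a ∈ P := periodic_mul f P (periodic_mul f P hmP m')
  have h2 : ∀ k a, f^[n * k] a ∈ P' ↔ a ∈ P' := by
    refine periodic_mul f P' ?_
    rw [hn', mul_comm]
    exact periodic_mul f P' hmP' m
  set S := {w : O →+* D | (∀ a ∈ P, w a = 0) ∧ ∀ a ∈ P', w a = 0} with hS
  let w : ℕ → S := fun k => ⟨z.comp ((f : O →+* O) ^ (n * k)), by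
    have hpow : ∀ (k : ℕ) (h : O), ((f : O →+* O) ^ k) h = f^[k] h := by
      intro k
      induction k with
      | zero => intro h; rfl
      | succ k ih =>
        intro h
        rw [pow_succ, RingHom.mul_def, RingHom.comp_apply, ih, Function.iterate_succ_apply]
        rfl
    constructor
    · intro a ha
      rw [RingHom.comp_apply, hpow]
      exact hzP _ ((h1 k a).2 ha)
    · intro a ha
      rw [RingHom.comp_apply, hpow]
      exact hzP' _ ((h2 k a).2 ha)⟩
  have hfin' : Finite S := hfin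
  obtain ⟨k, l, hkl, he⟩ := Finite.exists_ne_map_eq_of_infinite w
  have hpow : ∀ (k : ℕ) (h : O), ((f : O →+* O) ^ k) h = f^[k] h := by
    intro k
    induction k with
    | zero => intro h; rfl
    | succ k ih =>
      intro h
      rw [pow_succ, RingHom.mul_def, RingHom.comp_apply, ih, Function.iterate_succ_apply]
      rfl
  have he' : ∀ a, z (f^[n * k] a) = z (f^[n * l] a) := by
    intro a
    have := congrArg (fun s : S => (s : O →+* D) a) he
    simp only [w, RingHom.comp_apply] at this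
    rwa [hpow, hpow] at this
  have fin : ∀ k l : ℕ, k < l → (∀ a, z (f^[n * k] a) = z (f^[n * l] a)) → False := by
    intro k l hlt hkl
    refine hper (n * (l - k)) (Nat.mul_pos hn (Nat.sub_pos_of_lt hlt)) fun b => ?_
    obtain ⟨a, rfl⟩ := iterate_surj f (n * k) b
    rw [← Function.iterate_add_apply, ← Nat.mul_add, Nat.sub_add_cancel hlt.le]
    exact (hkl a).symm
  rcases lt_or_gt_of_ne hkl with hlt | hlt
  · exact fin k l hlt he'
  · exact fin l k hlt fun a => (he' a).symm

end Pool.Agent.Helper16.CY
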