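import Mathlib

/-!
# Embeddings of an algebraically closed field of transcendence degree one

If `Ω` is algebraically closed of transcendence degree at most one over `k`, then every element
which is transcendental over `k` can be sent to every other one by an embedding of `Ω` over `k`.
-/

namespace Pool.Agent.Helper16.CY

open IntermediateField algebraAdjoinAdjoin

/-- In transcendence degree one the field is algebraic over every transcendental element. -/
theorem isAlgebraic_adjoin {k Ω : Type*} [Field k] [Field Ω] [Algebra k Ω]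
    (h1 : Algebra.trdeg k Ω ≤ 1) {u : Ω} (hu : Transcendental k u) :
    Algebra.IsAlgebraic k⟮u⟯ Ω := by
  have h2 : AlgebraicIndependent k (fun _ : Unit => u) := by
    rw [algebraicIndependent_unique_type_iff]
    exact hu
  have h3 : IsTranscendenceBasis k (fun _ : Unit => u) := by
    refine AlgebraicIndependent.isTranscendenceBasis_of_lift_trdeg_le_of_finite h2 ?_
    simpa using h1
  have h4 := h3.isAlgebraic_field
  rwa [Set.range_const] at h4

/-- A field which is algebraic over `k(t)` has transcendence degree at most one. -/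
theorem trdeg_le_one {k Ω : Type*} [Field k] [Field Ω] [Algebra k Ω] (t : Ω)
    [h : Algebra.IsAlgebraic k⟮t⟯ Ω] : Algebra.trdeg k Ω ≤ 1 := by
  have h1 : Algebra.IsAlgebraic (Algebra.adjoin k {t}) Ω := by
    exact (IsFractionRing.comap_isAlgebraic_iff (A := Algebra.adjoin k {t}) (K := k⟮t⟯)).mpr h
  have h2 := Algebra.IsAlgebraic.trdeg_le_cardinalMk k ({t} : Set Ω)
  simpa using h2

/-- A transcendental element can be sent to every other one. -/
theorem exists_emb {k Ω : Type*} [Field k] [Field Ω] [Algebra k Ω] [IsAlgClosed Ω]
    (h1 : Algebra.trdeg k Ω ≤ 1) {u v : Ω} (hu : Transcendental k u) (hv : Transcendental k v) :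
    ∃ σ : Ω →ₐ[k] Ω, σ u = v := by
  have halg := isAlgebraic_adjoin h1 hu
  let f : k⟮u⟯ →ₐ[k] Ω := (IntermediateField.val k⟮v⟯).comp
    ((RatFunc.algEquivOfTranscendental u hu).symm.trans
      (RatFunc.algEquivOfTranscendental v hv)).toAlgHom
  obtain ⟨φ, hφ⟩ := IntermediateField.exists_algHom_of_splits' (E := Ω) f
    fun s => ⟨(halg.isAlgebraic s).isIntegral, IsAlgClosed.splits _⟩
  refine ⟨φ, ?_⟩
  have h2 := DFunLike.congr_fun hφ (AdjoinSimple.gen k u)
  have h3 : f (AdjoinSimple.gen k u) = v := by
    simp [f]
  rw [h3] at h2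
  exact h2

end Pool.Agent.Helper16.CY
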