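import Mathlib
import Pool.Agent.Helper47.NI.Sym
import Pool.Agent.Helper16.CY.Val
import Pool.Agent.Helper16.CY.Emb

/-!
# Finitely many of the points are common zeros of two coprime forms

Let `Ω` be algebraically closed of transcendence degree at most one over the algebraically closed
field `k`, and let `(X i, Y i)` be a family of `Ω`-points which are generic points of pairwise
different curves over `k`.  If over each `x` there are finitely many classes of points of the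
family, then two coprime forms in four variables vanish together at finitely many `X i` only.
-/

namespace Pool.Agent.Helper16.CY

open MvPolynomial

/-- An element of a field over an algebraically closed field `k` which is not in `k` is
transcendental. -/
theorem transcendental_of {k Ω : Type*} [Field k] [IsAlgClosed k] [Field Ω] [Algebra k Ω] {u : Ω}
    (hu : ∀ c : k, u ≠ algebraMap k Ω c) : Transcendental k u := by
  intro h
  have hint := h.isIntegral
  have h2 : (minpoly k u).degree = 1 :=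
    IsAlgClosed.degree_eq_one_of_irreducible k (minpoly.irreducible hint)
  have h3 := minpoly.aeval k u
  rw [Polynomial.eq_X_add_C_of_degree_eq_one h2, (minpoly.monic hint).leadingCoeff, Polynomial.C_1,
    one_mul, map_add, Polynomial.aeval_X, Polynomial.aeval_C, add_eq_zero_iff_eq_neg,
    ← map_neg] at h3
  exact hu _ h3

/-- The general form of the statement: `hcl` says that over each point `x` there are finitely many
classes of `σ (Y i)` with `σ (X i)` proportional to `x`. -/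
theorem fin_of_classes {k Ω : Type*} [Field k] [IsAlgClosed k] [Field Ω] [Algebra k Ω]
    [IsAlgClosed Ω] (h1 : Algebra.trdeg k Ω ≤ 1) {ι : Type*} (X Y : ι → Fin 4 → Ω)
    (hX : ∀ i, ¬ ∃ (c : Ω) (v : Fin 4 → k), ∀ j, X i j = c * algebraMap k Ω (v j))
    (hcl : ∀ x : Fin 4 → Ω, ∃ T : Finset (Fin 4 → Ω), ∀ (i : ι) (σ : Ω →ₐ[k] Ω),
      (∃ c : Ω, c ≠ 0 ∧ ∀ j, σ (X i j) = c * x j) →
      ∃ t ∈ T, ∃ c : Ω, c ≠ 0 ∧ ∀ j, σ (Y i j) = c * t j)
    (hdiff : ∀ i j, i ≠ j → ¬ ∃ (σ τ : Ω →ₐ[k] Ω) (c d : Ω), c ≠ 0 ∧ d ≠ 0 ∧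
      (∀ a, σ (X i a) = c * τ (X j a)) ∧ ∀ a, σ (Y i a) = d * τ (Y j a))
    (F G : MvPolynomial (Fin 4) k) (e1 e2 : ℕ) (hF : F.IsHomogeneous e1)
    (hG : G.IsHomogeneous e2) (h : IsRelPrime F G) :
    {i | aeval (X i) F = 0 ∧ aeval (X i) G = 0}.Finite := by
  classical
  have key : ∀ a b : Fin 4, {i | X i a ≠ 0 ∧ Transcendental k (X i b / X i a) ∧
      aeval (X i) F = 0 ∧ aeval (X i) G = 0}.Finite := by
    intro a b
    set J := {i | X i a ≠ 0 ∧ Transcendental k (X i b / X i a) ∧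
      aeval (X i) F = 0 ∧ aeval (X i) G = 0} with hJ
    by_cases hne : J.Nonempty
    swap
    · rw [Set.not_nonempty_iff_eq_empty] at hne
      rw [hne]
      exact Set.finite_empty
    obtain ⟨i0, hi0⟩ := hne
    set u := X i0 b / X i0 a
    have hu : Transcendental k u := hi0.2.1
    have hσ : ∀ i : J, ∃ σ : Ω →ₐ[k] Ω, σ (X i b / X i a) = u := fun i =>
      exists_emb h1 i.2.2.1 hu
    choose σ hσ using hσ
    let x' : J → Fin 4 → Ω := fun i j => σ i (X i j / X i a)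
    have hx' : ∀ i : J, x' i ∈ {x : Fin 4 → Ω | x a = 1 ∧ x b = u ∧ aeval x F = 0 ∧
        aeval x G = 0} := by
      intro i
      have hz : ∀ (P : MvPolynomial (Fin 4) k) (e : ℕ), P.IsHomogeneous e →
          aeval (X i) P = 0 → aeval (x' i) P = 0 := by
        intro P e hP hP0
        have h2 : aeval (fun j => (X i a)⁻¹ * X i j) P = 0 := by
          rw [aeval_smul_hom hP, hP0, mul_zero]
        have h3 := congrArg (σ i) h2
        rw [comp_aeval_apply, map_zero] at h3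
        rw [← h3]
        congr 1
        apply congrArg
        funext j
        simp only [x']
        rw [div_eq_mul_inv, mul_comm]
      refine ⟨?_, hσ i, hz F e1 hF i.2.2.2.1, hz G e2 hG i.2.2.2.2⟩
      simp only [x']
      rw [div_self i.2.1, map_one]
    have hfib : ∀ x : Fin 4 → Ω, {i : J | x' i = x}.Finite := by
      intro x
      obtain ⟨T, hT⟩ := hcl x
      have hrep : ∀ (i : {i : J // x' i = x}) (j : Fin 4),
          σ i.1 (X i.1 j) = σ i.1 (X i.1 a) * x j := by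
        intro i j
        have h4 := congrFun i.2 j
        simp only [x'] at h4
        rw [← h4, ← map_mul, mul_div_cancel₀ _ i.1.2.1]
      have hT' : ∀ i : {i : J // x' i = x}, ∃ t : T, ∃ c : Ω, c ≠ 0 ∧
          ∀ j, σ i.1 (Y i.1 j) = c * t.1 j := by
        intro i
        obtain ⟨t, ht, c, hc, hct⟩ := hT i.1 (σ i.1) ⟨σ i.1 (X i.1 a),
          (map_ne_zero _).mpr i.1.2.1, hrep i⟩
        exact ⟨⟨t, ht⟩, c, hc, hct⟩
      choose t c hc hct using hT'
      have hinj : Function.Injective t := by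
        intro i i' hii
        by_contra hne
        refine hdiff i.1.1 i'.1.1 (fun h => hne (Subtype.ext (Subtype.ext h))) ?_
        refine ⟨σ i.1, σ i'.1, σ i.1 (X i.1 a) / σ i'.1 (X i'.1 a), c i / c i',
          div_ne_zero ((map_ne_zero _).mpr i.1.2.1) ((map_ne_zero _).mpr i'.1.2.1),
          div_ne_zero (hc i) (hc i'), fun j => ?_, fun j => ?_⟩
        · rw [hrep i j, hrep i' j, ← mul_assoc, div_mul_cancel₀ _ ((map_ne_zero _).mpr i'.1.2.1)]
        · rw [hct i, hct i', hii, ← mul_assoc, div_mul_cancel₀ _ (hc i')]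
      have : Finite {i : J // x' i = x} := Finite.of_injective t hinj
      exact this
    have hJfin : Finite J := by
      have h6 : (Set.univ : Set J) = ⋃ x ∈ {x : Fin 4 → Ω | x a = 1 ∧ x b = u ∧ aeval x F = 0 ∧
          aeval x G = 0}, {i : J | x' i = x} := by
        ext i
        simp only [Set.mem_univ, Set.mem_iUnion, true_iff]
        exact ⟨x' i, hx' i, rfl⟩
      have h7 : (Set.univ : Set J).Finite := by
        rw [h6]
        exact (fin_zero hF hG h hu).biUnion fun x _ => hfib x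
      exact Set.finite_univ_iff.mp h7
    exact Set.toFinite J
  have hsub : {i | aeval (X i) F = 0 ∧ aeval (X i) G = 0} ⊆ ⋃ a, ⋃ b, {i | X i a ≠ 0 ∧
      Transcendental k (X i b / X i a) ∧ aeval (X i) F = 0 ∧ aeval (X i) G = 0} := by
    intro i hi
    obtain ⟨a, ha⟩ : ∃ a, X i a ≠ 0 := by
      by_contra hne
      push Not at hne
      exact hX i ⟨0, fun _ => 0, fun j => by rw [hne j, zero_mul]⟩
    obtain ⟨b, hb⟩ : ∃ b, ∀ c : k, X i b / X i a ≠ algebraMap k Ω c := by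
      by_contra hne
      push Not at hne
      choose v hv using hne
      refine hX i ⟨X i a, v, fun j => ?_⟩
      rw [← hv j, mul_div_cancel₀ _ ha]
    rw [Set.mem_iUnion]
    refine ⟨a, ?_⟩
    rw [Set.mem_iUnion]
    exact ⟨b, ha, transcendental_of hb, hi.1, hi.2⟩
  exact (Set.finite_iUnion fun a => Set.finite_iUnion fun b => key a b).subset hsub

open Pool.Agent.Helper47.NI in
theorem sum_pr {R : Type*} [CommRing R] {n : ℕ} (ξ y z : Fin n → R) :
    ∑ a, ∑ b, ξ a * ξ b * pr y z (a, b) = 2 * (∑ a, ξ a * y a) * ∑ a, ξ a * z a := by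
  have h1 : ∑ a, ∑ b, ξ a * ξ b * pr y z (a, b) =
      (∑ a, ∑ b, (ξ a * y a) * (ξ b * z b)) + ∑ a, ∑ b, (ξ a * z a) * (ξ b * y b) := by
    rw [← Finset.sum_add_distrib]
    refine Finset.sum_congr rfl fun a _ => ?_
    rw [← Finset.sum_add_distrib]
    refine Finset.sum_congr rfl fun b _ => ?_
    simp only [pr]
    ring
  rw [h1, ← Finset.sum_mul_sum, ← Finset.sum_mul_sum]
  ring

open Pool.Agent.Helper47.NI in
/-- The symmetric product of two points determines the points. -/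
theorem pr_class {Ω : Type*} [Field Ω] (h2 : (2 : Ω) ≠ 0) {n : ℕ} {y y' z z' : Fin n → Ω}
    (hy : y ≠ 0) (hz : z ≠ 0) (hz' : z' ≠ 0) {m : Ω} (hm : m ≠ 0)
    (h : ∀ p, pr y y' p = m * pr z z' p) :
    (∃ c : Ω, c ≠ 0 ∧ ∀ j, y j = c * z j) ∨ ∃ c : Ω, c ≠ 0 ∧ ∀ j, y j = c * z' j := by
  classical
  have h3 : ∀ ξ : Fin n → Ω, ∑ a, ξ a * y a = 0 →
      (∑ a, ξ a * z a) = 0 ∨ (∑ a, ξ a * z' a) = 0 := by
    intro ξ hξ
    have h4 : ∑ a, ∑ b, ξ a * ξ b * pr y y' (a, b) = m * ∑ a, ∑ b, ξ a * ξ b * pr z z' (a, b) := by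
      rw [Finset.mul_sum]
      refine Finset.sum_congr rfl fun a _ => ?_
      rw [Finset.mul_sum]
      refine Finset.sum_congr rfl fun b _ => ?_
      rw [h (a, b)]
      ring
    rw [sum_pr, sum_pr, hξ, mul_zero, zero_mul, eq_comm, mul_eq_zero, mul_eq_zero, mul_eq_zero] at h4
    rcases h4 with h4 | (h4 | h4) | h4
    · exact absurd h4 hm
    · exact absurd h4 h2
    · exact Or.inl h4
    · exact Or.inr h4
  -- if all `ξ` orthogonal to `y` are orthogonal to `w`, then `y` is a multiple of `w`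
  have h5 : ∀ w : Fin n → Ω, w ≠ 0 → (∀ ξ : Fin n → Ω, ∑ a, ξ a * y a = 0 →
      ∑ a, ξ a * w a = 0) → ∃ c : Ω, c ≠ 0 ∧ ∀ j, y j = c * w j := by
    intro w hw hall
    have h6 : ∀ a b : Fin n, y b * w a = y a * w b := by
      intro a b
      have h7 : ∀ v : Fin n → Ω, ∑ j, ((if j = a then y b else 0) - if j = b then y a else 0) * v j
          = y b * v a - y a * v b := by
        intro v
        simp only [sub_mul, ite_mul, zero_mul, Finset.sum_sub_distrib, Finset.sum_ite_eq',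
          Finset.mem_univ, if_true]
      have h8 := hall (fun j => (if j = a then y b else 0) - if j = b then y a else 0) (by
        rw [h7]
        ring)
      rw [h7] at h8
      exact sub_eq_zero.mp h8
    obtain ⟨a, ha⟩ : ∃ a, w a ≠ 0 := by
      by_contra hne
      push Not at hne
      exact hw (funext hne)
    refine ⟨y a / w a, ?_, fun j => ?_⟩
    · refine div_ne_zero (fun hya => hy (funext fun b => ?_)) ha
      have := h6 a b
      rw [hya, zero_mul] at this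
      exact (mul_eq_zero.mp this).resolve_right ha
    · rw [div_mul_eq_mul_div, eq_div_iff ha]
      exact h6 a j
  by_cases hA : ∀ ξ : Fin n → Ω, ∑ a, ξ a * y a = 0 → ∑ a, ξ a * z a = 0
  · exact Or.inl (h5 z hz hA)
  · right
    push Not at hA
    obtain ⟨ξ0, h01, h02⟩ := hA
    have h03 := (h3 ξ0 h01).resolve_left h02
    refine h5 z' hz' fun ξ hξ => ?_
    by_cases h9 : ∑ a, ξ a * z a = 0
    · have hadd : ∀ v : Fin n → Ω, ∑ a, (ξ a + ξ0 a) * v a =
          ∑ a, ξ a * v a + ∑ a, ξ0 a * v a := by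
        intro v
        rw [← Finset.sum_add_distrib]
        exact Finset.sum_congr rfl fun a _ => by ring
      have h10 := h3 (fun a => ξ a + ξ0 a) (by rw [hadd, hξ, h01, add_zero])
      rw [hadd, hadd, h9, h03, zero_add, add_zero] at h10
      exact h10.resolve_left h02
    · exact (h3 ξ hξ).resolve_left h9

open Pool.Agent.Helper47.NI in
/-- The form of the statement which is used for the closure of an infinite family: `Y i` and
`Y (t i)` are the two points over `X i`. -/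
theorem fin_of_pr {k Ω : Type*} [Field k] [IsAlgClosed k] [Field Ω] [Algebra k Ω]
    [IsAlgClosed Ω] (h2 : (2 : Ω) ≠ 0) (h1 : Algebra.trdeg k Ω ≤ 1) {ι : Type*}
    (X Y : ι → Fin 4 → Ω) (t : ι → ι) (G' : Fin 4 × Fin 4 → MvPolynomial (Fin 4) k) {c : ℕ}
    (hG' : ∀ p, (G' p).IsHomogeneous c)
    (hX : ∀ i, ¬ ∃ (c : Ω) (v : Fin 4 → k), ∀ j, X i j = c * algebraMap k Ω (v j))
    (hne : ∀ i, ∃ p, aeval (X i) (G' p) ≠ 0)
    (hY : ∀ i, ∃ l : Ω, ∀ p, aeval (X i) (G' p) = l * pr (Y i) (Y (t i)) p)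
    (hdiff : ∀ i j, i ≠ j → ¬ ∃ (σ τ : Ω →ₐ[k] Ω) (c d : Ω), c ≠ 0 ∧ d ≠ 0 ∧
      (∀ a, σ (X i a) = c * τ (X j a)) ∧ ∀ a, σ (Y i a) = d * τ (Y j a))
    (F G : MvPolynomial (Fin 4) k) (e1 e2 : ℕ) (hF : F.IsHomogeneous e1)
    (hG : G.IsHomogeneous e2) (h : IsRelPrime F G) :
    {i | aeval (X i) F = 0 ∧ aeval (X i) G = 0}.Finite := by
  classical
  have hl : ∀ i, ∃ l : Ω, l ≠ 0 ∧ Y i ≠ 0 ∧ Y (t i) ≠ 0 ∧
      ∀ p, aeval (X i) (G' p) = l * pr (Y i) (Y (t i)) p := by
    intro i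
    obtain ⟨l, hl⟩ := hY i
    obtain ⟨p, hp⟩ := hne i
    rw [hl p] at hp
    refine ⟨l, left_ne_zero_of_mul hp, fun h0 => hp ?_, fun h0 => hp ?_, hl⟩
    · rw [h0]
      simp [pr]
    · rw [h0]
      simp [pr]
  refine fin_of_classes h1 X Y hX ?_ hdiff F G e1 e2 hF hG h
  intro x
  by_cases hx : ∃ (i : ι) (σ : Ω →ₐ[k] Ω) (c : Ω), c ≠ 0 ∧ ∀ j, σ (X i j) = c * x j
  swap
  · refine ⟨∅, fun i σ ⟨c, hc, hcx⟩ => (hx ⟨i, σ, c, hc, hcx⟩).elim⟩
  obtain ⟨i0, σ0, c0, hc0, hcx0⟩ := hx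
  refine ⟨{fun j => σ0 (Y i0 j), fun j => σ0 (Y (t i0) j)}, fun i σ ⟨c1, hc1, hcx1⟩ => ?_⟩
  obtain ⟨l0, hl0, hy0, hy0', hv0⟩ := hl i0
  obtain ⟨l1, hl1, hy1, hy1', hv1⟩ := hl i
  have hval : ∀ (τ : Ω →ₐ[k] Ω) (i : ι) (l c1 : Ω), (∀ j, τ (X i j) = c1 * x j) →
      (∀ p, aeval (X i) (G' p) = l * pr (Y i) (Y (t i)) p) →
      ∀ p, c1 ^ c * aeval x (G' p) = τ l * pr (fun j => τ (Y i j)) (fun j => τ (Y (t i) j)) p := by
    intro τ i l c1 hc hv p
    rw [← aeval_smul_hom (hG' p)]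
    have h3 : (fun j => c1 * x j) = fun j => τ (X i j) := funext fun j => (hc j).symm
    rw [h3]
    have h4 := congrArg τ (hv p)
    rw [comp_aeval_apply, map_mul] at h4
    rw [h4]
    simp [pr]
  have hA := hval σ0 i0 l0 c0 hcx0 hv0
  have hB := hval σ i l1 c1 hcx1 hv1
  have hinj : ∀ (τ : Ω →ₐ[k] Ω) (y : Fin 4 → Ω), y ≠ 0 → (fun j => τ (y j)) ≠ 0 := by
    intro τ y hy h0
    apply hy
    funext j
    have := congrFun h0 j
    simpa using this
  have hσ1 : σ l1 ≠ 0 := (map_ne_zero _).mpr hl1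
  have hσ0 : σ0 l0 ≠ 0 := (map_ne_zero _).mpr hl0
  have hcl := pr_class h2 (hinj σ _ hy1) (hinj σ0 _ hy0) (hinj σ0 _ hy0')
    (m := (σ l1)⁻¹ * (c1 ^ c * ((c0 ^ c)⁻¹ * σ0 l0)))
    (mul_ne_zero (inv_ne_zero hσ1) (mul_ne_zero (pow_ne_zero _ hc1)
      (mul_ne_zero (inv_ne_zero (pow_ne_zero _ hc0)) hσ0)))
    (y' := fun j => σ (Y (t i) j)) (by
      intro p
      have h5 : aeval x (G' p) = (c0 ^ c)⁻¹ * (σ0 l0 *
          pr (fun j => σ0 (Y i0 j)) (fun j => σ0 (Y (t i0) j)) p) := by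
        rw [← hA p, inv_mul_cancel_left₀ (pow_ne_zero _ hc0)]
      have h6 := hB p
      rw [h5] at h6
      have h7 : pr (fun j => σ (Y i j)) (fun j => σ (Y (t i) j)) p = (σ l1)⁻¹ * (σ l1 *
          pr (fun j => σ (Y i j)) (fun j => σ (Y (t i) j)) p) := by
        rw [inv_mul_cancel_left₀ hσ1]
      rw [h7, ← h6]
      ring)
  rcases hcl with ⟨c2, hc2, h8⟩ | ⟨c2, hc2, h8⟩
  · exact ⟨_, by simp, c2, hc2, h8⟩
  · exact ⟨fun j => σ0 (Y (t i0) j), by simp, c2, hc2, h8⟩

end Pool.Agent.Helper16.CY
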